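import Mathlib
import Pool.Agent.W964.Wd.Machine

/-!
Parallel oracle machines.
-/

namespace Pool.Agent.W964.Wd

/-- An ideal parallel random access machine with `P` processors and an oracle for inputs that
consist of words `x j : W`. It is a machine as in `Machine` with the following additional ability:
in every step a processor in the state `q` also asks the oracle about the string whose `i`-th letter
is the content of the `i`-th cell of the list `ask q` (the empty string if `ask q` is empty), and
its next state also depends on the answer. The oracle is an arbitrary set of strings over the
alphabet `V` of the possible contents of a cell. -/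
structure OMachine (W J : Type) (P : ℕ) where
  Q : Type
  A : Type
  V : Type
  word : W → V
  blank : V
  start : Fin P → Q
  query : Q → List (J ⊕ A)
  test : Q → V → Bool
  ask : Q → List (J ⊕ A)
  oracle : Set (List V)
  next : Q → Option ((J ⊕ A) × V) → Bool → Q
  write : Q → Option ((J ⊕ A) × V)
  out : J ⊕ A
  accept : V → Bool

namespace OMachine

variable {W J : Type} {P : ℕ}

/-- The result of the search of a processor in the state `q` when the contents of the cells are
`mem`. -/
def find (M : OMachine W J P) (q : M.Q) (mem : J ⊕ M.A → M.V) : Option ((J ⊕ M.A) × M.V) :=
  (M.query q).findSome? (fun c => if M.test q (mem c) = true then some (c, mem c) else none)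

open Classical in
/-- The answer of the oracle to the question of a processor in the state `q`. -/
noncomputable def reply (M : OMachine W J P) (q : M.Q) (mem : J ⊕ M.A → M.V) : Bool :=
  decide ((M.ask q).map mem ∈ M.oracle)

open Classical in
/-- The value that a processor in the state `q` wants to write into the cell `c`. -/
noncomputable def wr (M : OMachine W J P) (c : J ⊕ M.A) (q : M.Q) : Option M.V :=
  (M.write q).bind (fun w => if w.1 = c then some w.2 else none)

/-- The states of the processors and the contents of the cells after `t` steps on the input
`x`. -/
noncomputable def run (M : OMachine W J P) (x : J → W) : ℕ → (Fin P → M.Q) × (J ⊕ M.A → M.V)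
  | 0 => (M.start, Sum.elim (fun j => M.word (x j)) (fun _ => M.blank))
  | t + 1 =>
    let st : Fin P → M.Q := fun p => M.next ((run M x t).1 p)
      (M.find ((run M x t).1 p) (run M x t).2) (M.reply ((run M x t).1 p) (run M x t).2)
    (st, fun c => ((List.finRange P).findSome? (fun p => M.wr c (st p))).getD ((run M x t).2 c))

/-- The answer after `T` steps on the input `x`. -/
noncomputable def answer (M : OMachine W J P) (T : ℕ) (x : J → W) : Bool :=
  M.accept ((M.run x T).2 M.out)

/-- All lists searched by the machine have length at most `k`. -/
def Lists (M : OMachine W J P) (k : ℕ) : Prop := ∀ q, (M.query q).length ≤ k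

/-- The questions to the oracle have length at most `k`, and for every `l ≤ k` the oracle set
contains at most `D` strings of length `l`. -/
def Sparse (M : OMachine W J P) (k D : ℕ) : Prop :=
  (∀ q, (M.ask q).length ≤ k) ∧ ∀ l, l ≤ k → {s | s ∈ M.oracle ∧ s.length = l}.encard ≤ D

end OMachine

/-- A randomized parallel oracle machine: a probability distribution on finitely many machines
(which may even have different oracles). -/
structure ROMachine (W J : Type) (P : ℕ) where
  Ω : Type
  fin : Fintype Ω
  prob : Ω → ℝ
  nonneg : ∀ ω, 0 ≤ prob ω
  total : ∑ ω, prob ω = 1
  mach : Ω → OMachine W J P

open Classical in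
/-- The probability that the answer after `T` steps on the input `x` is the truth value of
`p`. -/
noncomputable def ROMachine.success {W J : Type} {P : ℕ} (R : ROMachine W J P) (T : ℕ)
    (x : J → W) (p : Prop) : ℝ :=
  letI := R.fin
  ∑ ω, if ((R.mach ω).answer T x = true ↔ p) then R.prob ω else 0

end Pool.Agent.W964.Wd
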