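import Mathlib
import Pool.Agent.W964.Wd.Upd
import Pool.Agent.W964.Wd.Sp.Defs

/-!
The simulation of a machine with a sparse oracle by a machine without oracle.
-/

set_option linter.unusedSectionVars false

namespace Pool.Agent.W964.Wd

open Finset

/-- The contents of the cells of the simulating machine. -/
inductive SV (V Q : Type) : Type
  | val (v : V) : SV V Q
  | st (q : Q) : SV V Q
  | bad (t : ℕ) : SV V Q

section Sim
variable {W J : Type} {P : ℕ} (M : OMachine W J P) (k D H : ℕ)

/-- The states of the simulating machine. -/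
inductive SQ : Type
  | o0 (t : ℕ) (p : Fin P) (q : M.Q) : SQ
  | o1 (t : ℕ) (p : Fin P) (q : M.Q) (o : Option ((J ⊕ M.A) × M.V)) : SQ
  | o2 (t : ℕ) (p : Fin P) (q : M.Q) (o : Option ((J ⊕ M.A) × M.V)) : SQ
  | o3 (t : ℕ) (p : Fin P) (q : M.Q) (o : Option ((J ⊕ M.A) × M.V)) : SQ
  | h0 (t : ℕ) (h : Fin P × Fin D × Fin k) : SQ
  | h1 (t : ℕ) (h : Fin P × Fin D × Fin k) : SQ
  | h2 (t : ℕ) (h : Fin P × Fin D × Fin k) (q : Option M.Q) : SQ
  | h3 (t : ℕ) (h : Fin P × Fin D × Fin k) (b : Bool) : SQ

/-- The further addresses of the simulating machine. -/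
abbrev SA : Type := M.A ⊕ (Fin P ⊕ (Fin P × Fin D))

/-- The embedding of the cells. -/
def emb (c : J ⊕ M.A) : J ⊕ SA M D := match c with
  | Sum.inl j => Sum.inl j
  | Sum.inr a => Sum.inr (Sum.inl a)

lemma emb_inj : Function.Injective (emb M D) := by
  intro c c' h
  cases c <;> cases c' <;> simp_all [emb]

/-- The cell for the state of a processor. -/
def cst (p : Fin P) : J ⊕ SA M D := Sum.inr (Sum.inr (Sum.inl p))

/-- The cell for the flag of a string. -/
def cfl (p : Fin P) (d : Fin D) : J ⊕ SA M D := Sum.inr (Sum.inr (Sum.inr (p, d)))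

/-- The result of a search, read as a result of the original machine. -/
def back (o : Option ((J ⊕ SA M D) × SV M.V M.Q)) : Option ((J ⊕ M.A) × M.V) := match o with
  | some (Sum.inl j, SV.val v) => some (Sum.inl j, v)
  | some (Sum.inr (Sum.inl a), SV.val v) => some (Sum.inr a, v)
  | _ => none

/-- The test of the original machine. -/
def test1 (q : M.Q) (u : SV M.V M.Q) : Bool := match u with
  | SV.val v => M.test q v
  | _ => false

lemma back_find (q : M.Q) (mem : J ⊕ M.A → M.V) (mem' : J ⊕ SA M D → SV M.V M.Q)
    (hm : ∀ c, mem' (emb M D c) = SV.val (mem c)) :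
    back M D (((M.query q).map (emb M D)).findSome? (fun c =>
      if test1 M q (mem' c) = true then some (c, mem' c) else none)) = M.find q mem := by
  have h : ((M.query q).map (emb M D)).findSome? (fun c =>
      if test1 M q (mem' c) = true then some (c, mem' c) else none) =
      (M.find q mem).map (fun cv => (emb M D cv.1, SV.val cv.2)) := by
    unfold OMachine.find
    rw [List.findSome?_map, List.map_findSome?]
    congr 1
    funext c
    show (if test1 M q (mem' (emb M D c)) = true then _ else _) = Option.map _ _
    rw [hm]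
    show (if M.test q (mem c) = true then some (emb M D c, SV.val (mem c)) else none) =
      Option.map (fun cv => (emb M D cv.1, SV.val cv.2))
        (if M.test q (mem c) = true then some (c, mem c) else none)
    split_ifs <;> rfl
  rw [h]
  cases hf : M.find q mem with
  | none => rfl
  | some cv =>
    obtain ⟨c, v⟩ := cv
    cases c <;> rfl

variable (en : ℕ → Fin D → Option (List M.V))

/-- The comparison made by a helper. -/
def probe (q : M.Q) (d : Fin D) (i : Fin k) : Option ((J ⊕ M.A) × M.V) :=
  match (M.ask q)[(i : ℕ)]?, en (M.ask q).length d with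
  | some c, some s => (s[(i : ℕ)]?).map (fun v => (c, v))
  | _, _ => none

/-- The lists of the simulating machine. -/
def query1 (s : SQ M k D) : List (J ⊕ SA M D) := match s with
  | SQ.o0 _ _ q => (M.query q).map (emb M D)
  | SQ.o3 _ p q _ => ((List.finRange D).filter
      (fun d => (en (M.ask q).length d).isSome)).map (cfl M D p)
  | SQ.h1 _ h => [cst M D h.1]
  | SQ.h2 _ h (some q) => match probe M k D en q h.2.1 h.2.2 with
    | some cv => [emb M D cv.1]
    | none => []
  | _ => []

open Classical in
/-- The tests of the simulating machine. -/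
noncomputable def test2 (s : SQ M k D) (u : SV M.V M.Q) : Bool := match s with
  | SQ.o0 _ _ q => test1 M q u
  | SQ.o3 t _ _ _ => decide (u ≠ SV.bad t)
  | SQ.h1 _ _ => true
  | SQ.h2 _ h (some q) => match probe M k D en q h.2.1 h.2.2 with
    | some cv => decide (u ≠ SV.val cv.2)
    | none => false
  | _ => false

/-- The next state of the simulating machine. -/
def next1 (s : SQ M k D) (o : Option ((J ⊕ SA M D) × SV M.V M.Q)) : SQ M k D := match s with
  | SQ.o0 t p q => SQ.o1 t p q (back M D o)
  | SQ.o1 t p q r => SQ.o2 t p q r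
  | SQ.o2 t p q r => SQ.o3 t p q r
  | SQ.o3 t p q r => SQ.o0 (t + 1) p (M.next q r o.isSome)
  | SQ.h0 t h => SQ.h1 t h
  | SQ.h1 t h => SQ.h2 t h (match o with
    | some (_, SV.st q) => some q
    | _ => none)
  | SQ.h2 t h _ => SQ.h3 t h o.isSome
  | SQ.h3 t h _ => SQ.h0 (t + 1) h

/-- What the processors of the simulating machine write. -/
def write1 (s : SQ M k D) : Option ((J ⊕ SA M D) × SV M.V M.Q) := match s with
  | SQ.o0 _ _ q => (M.write q).map (fun cv => (emb M D cv.1, SV.val cv.2))
  | SQ.o1 _ p q _ => some (cst M D p, SV.st q)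
  | SQ.h3 t h true => some (cfl M D h.1 h.2.1, SV.bad t)
  | _ => none

/-- The states of all processors of the simulating machine. -/
def sts {S : Type} (eH : Fin H ≃ Fin P × Fin D × Fin k) (fo : Fin P → S)
    (fh : Fin P × Fin D × Fin k → S) (p' : Fin (P + H)) : S :=
  Fin.addCases (fun p => fo p) (fun h => fh (eH h)) p'

/-- The simulating machine. -/
@[reducible] noncomputable def simM (eH : Fin H ≃ Fin P × Fin D × Fin k) : Machine W J (P + H) where
  Q := SQ M k D
  A := SA M D
  V := SV M.V M.Q
  word w := SV.val (M.word w)
  blank := SV.val M.blank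
  start := sts k D H eH (fun p => SQ.o0 0 p (M.start p)) (fun h => SQ.h0 0 h)
  query := query1 M k D en
  test := test2 M k D en
  next := next1 M k D
  write := write1 M k D
  out := emb M D M.out
  accept u := match u with
    | SV.val v => M.accept v
    | _ => false

lemma sts_left {S : Type} (eH : Fin H ≃ Fin P × Fin D × Fin k) (fo : Fin P → S)
    (fh : Fin P × Fin D × Fin k → S) (p : Fin P) :
    sts k D H eH fo fh (Fin.castAdd H p) = fo p := by
  unfold sts
  exact Fin.addCases_left _

lemma sts_right {S : Type} (eH : Fin H ≃ Fin P × Fin D × Fin k) (fo : Fin P → S)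
    (fh : Fin P × Fin D × Fin k → S) (h : Fin H) :
    sts k D H eH fo fh (Fin.natAdd P h) = fh (eH h) := by
  unfold sts
  exact Fin.addCases_right _

/-- The situation at the beginning of the simulation of a step. -/
structure Sync (eH : Fin H ≃ Fin P × Fin D × Fin k) (x : J → W) (t n : ℕ) : Prop where
  states : ((simM M k D H en eH).run x n).1 =
    sts k D H eH (fun p => SQ.o0 t p ((M.run x t).1 p)) (fun h => SQ.h0 t h)
  mem : ∀ c, ((simM M k D H en eH).run x n).2 (emb M D c) = SV.val ((M.run x t).2 c)
  flags : ∀ p d t', t ≤ t' → ((simM M k D H en eH).run x n).2 (cfl M D p d) ≠ SV.bad t'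

lemma emb_ne_cst (c : J ⊕ M.A) (p : Fin P) : emb M D c ≠ cst M D p := by
  cases c <;> simp [emb, cst]

lemma emb_ne_cfl (c : J ⊕ M.A) (p : Fin P) (d : Fin D) : emb M D c ≠ cfl M D p d := by
  cases c <;> simp [emb, cfl]

lemma cst_ne_cfl (p' p : Fin P) (d : Fin D) : cst M D p' ≠ cfl M D p d := by
  simp [cst, cfl]

/-- The answer of the oracle in terms of the comparisons. -/
lemma reply_iff (hM : M.Sparse k D)
    (hen : ∀ l, l ≤ k → ∀ s, (s ∈ M.oracle ∧ s.length = l) ↔ ∃ d, en l d = some s)
    (q : M.Q) (mem : J ⊕ M.A → M.V) :
    M.reply q mem = true ↔ ∃ d, (en (M.ask q).length d).isSome = true ∧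
      ∀ i : Fin k, ∀ cv, probe M k D en q d i = some cv → mem cv.1 = cv.2 := by
  classical
  unfold OMachine.reply
  rw [decide_eq_true_iff]
  have hk := hM.1 q
  have hen1 := hen _ hk
  constructor
  · intro h
    obtain ⟨d, hd⟩ := (hen1 _).1 ⟨h, by rw [List.length_map]⟩
    refine ⟨d, by rw [hd]; rfl, ?_⟩
    intro i cv hcv
    unfold probe at hcv
    rw [hd] at hcv
    cases hc : (M.ask q)[(i : ℕ)]? with
    | none =>
      rw [hc] at hcv
      exact absurd hcv (by simp)
    | some c =>
      rw [hc] at hcv
      dsimp only at hcv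
      rw [List.getElem?_map, hc] at hcv
      simp only [Option.map_some, Option.some.injEq] at hcv
      rw [← hcv]
  · rintro ⟨d, hd, hall⟩
    obtain ⟨s, hs⟩ := Option.isSome_iff_exists.1 hd
    obtain ⟨hs1, hs2⟩ := (hen1 s).2 ⟨d, hs⟩
    have he : (M.ask q).map mem = s := by
      apply List.ext_getElem?
      intro i
      by_cases hi : i < (M.ask q).length
      · have h1 : (M.ask q)[i]? = some ((M.ask q)[i]) := List.getElem?_eq_getElem hi
        have h2 : s[i]? = some (s[i]'(by omega)) := List.getElem?_eq_getElem (by omega)
        rw [List.getElem?_map, h1, h2]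
        have h3 := hall ⟨i, by omega⟩ ((M.ask q)[i], s[i]'(by omega)) (by
          unfold probe
          dsimp only
          rw [h1, hs]
          dsimp only
          rw [h2]
          rfl)
        simp only [Option.map_some]
        exact congrArg some h3
      · rw [List.getElem?_eq_none (by rw [List.length_map]; omega),
          List.getElem?_eq_none (by omega)]
    rw [he]
    exact hs1

/-- The simulation of one step. -/
lemma sync_step (hM : M.Sparse k D)
    (hen : ∀ l, l ≤ k → ∀ s, (s ∈ M.oracle ∧ s.length = l) ↔ ∃ d, en l d = some s)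
    (eH : Fin H ≃ Fin P × Fin D × Fin k) (x : J → W) {t n : ℕ}
    (hS : Sync M k D H en eH x t n) : Sync M k D H en eH x (t + 1) (n + 4) := by
  classical
  obtain ⟨h1, h2, h3⟩ := hS
  obtain ⟨qs, hqs⟩ : ∃ qs, qs = (M.run x t).1 := ⟨_, rfl⟩
  obtain ⟨mem, hmem⟩ : ∃ mem, mem = (M.run x t).2 := ⟨_, rfl⟩
  rw [← hqs] at h1
  rw [← hmem] at h2
  -- the first step
  have a1 : ((simM M k D H en eH).run x (n + 1)).1 =
      sts k D H eH (fun p => SQ.o1 t p (qs p) (M.find (qs p) mem)) (fun h => SQ.h1 t h) := by
    funext p'
    rw [Machine.run_states, h1]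
    refine Fin.addCases (fun p => ?_) (fun h => ?_) p'
    · rw [sts_left, sts_left]
      show SQ.o1 t p (qs p) (back M D _) = _
      congr 1
      exact back_find M D (qs p) mem _ h2
    · rw [sts_right, sts_right]
      rfl
  have a2 : ∀ c, ((simM M k D H en eH).run x (n + 1)).2 (emb M D c) = SV.val (mem c) := by
    intro c
    rw [Machine.mem_none, h2]
    intro p'
    rw [a1]
    refine Fin.addCases (fun p => ?_) (fun h => ?_) p'
    · rw [sts_left, Machine.wr_of (c' := cst M D p) (v := SV.st (qs p)) rfl,
        if_neg (emb_ne_cst M D c p).symm]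
    · rw [sts_right]
      exact Machine.wr_none_of rfl
  have a3 : ∀ p, ((simM M k D H en eH).run x (n + 1)).2 (cst M D p) = SV.st (qs p) := by
    intro p
    apply Machine.mem_some
    · refine ⟨Fin.castAdd H p, ?_⟩
      rw [a1, sts_left, Machine.wr_of (c' := cst M D p) (v := SV.st (qs p)) rfl, if_pos rfl]
    · intro p'
      rw [a1]
      refine Fin.addCases (fun p2 => ?_) (fun h => ?_) p'
      · intro v' hv'
        rw [sts_left, Machine.wr_of (c' := cst M D p2) (v := SV.st (qs p2)) rfl] at hv'
        by_cases hp : cst M D p2 = cst M D p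
        · rw [if_pos hp, Option.some.injEq] at hv'
          have : p2 = p := by simpa [cst] using hp
          rw [← hv', this]
        · rw [if_neg hp] at hv'
          exact absurd hv' (by simp)
      · intro v' hv'
        rw [sts_right, Machine.wr_none_of rfl] at hv'
        exact absurd hv' (by simp)
  have a4 : ∀ p d t', t ≤ t' →
      ((simM M k D H en eH).run x (n + 1)).2 (cfl M D p d) ≠ SV.bad t' := by
    intro p d t' ht'
    rw [Machine.mem_none]
    · exact h3 p d t' ht'
    intro p'
    rw [a1]
    refine Fin.addCases (fun p => ?_) (fun h => ?_) p'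
    · rw [sts_left, Machine.wr_of (c' := cst M D p) (v := SV.st (qs p)) rfl,
        if_neg (cst_ne_cfl M D _ _ _)]
    · rw [sts_right]
      exact Machine.wr_none_of rfl
  -- the second step
  have b1 : ((simM M k D H en eH).run x (n + 2)).1 =
      sts k D H eH (fun p => SQ.o2 t p (qs p) (M.find (qs p) mem))
        (fun h => SQ.h2 t h (some (qs h.1))) := by
    funext p'
    rw [Machine.run_states, a1]
    refine Fin.addCases (fun p => ?_) (fun h => ?_) p'
    · rw [sts_left, sts_left]
      rfl
    · rw [sts_right, sts_right]
      rw [Machine.find_single (c := cst M D (eH h).1) rfl]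
      have ht : (simM M k D H en eH).test (SQ.h1 t (eH h))
        (((simM M k D H en eH).run x (n + 1)).2 (cst M D (eH h).1)) = true := rfl
      rw [if_pos ht, a3]
      rfl
  have b0 : ∀ c, ((simM M k D H en eH).run x (n + 2)).2 c =
      ((simM M k D H en eH).run x (n + 1)).2 c := by
    intro c
    apply Machine.mem_none
    intro p'
    rw [b1]
    refine Fin.addCases (fun p => ?_) (fun h => ?_) p'
    · rw [sts_left]
      exact Machine.wr_none_of rfl
    · rw [sts_right]
      exact Machine.wr_none_of rfl
  -- the third step
  obtain ⟨mis, hmis⟩ : ∃ mis : Fin P × Fin D × Fin k → Bool, ∀ h, mis h = true ↔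
      ∃ cv, probe M k D en (qs h.1) h.2.1 h.2.2 = some cv ∧ mem cv.1 ≠ cv.2 :=
    ⟨fun h => decide (∃ cv, probe M k D en (qs h.1) h.2.1 h.2.2 = some cv ∧ mem cv.1 ≠ cv.2),
      fun h => decide_eq_true_iff⟩
  have c1 : ((simM M k D H en eH).run x (n + 3)).1 =
      sts k D H eH (fun p => SQ.o3 t p (qs p) (M.find (qs p) mem))
        (fun h => SQ.h3 t h (mis h)) := by
    funext p'
    rw [Machine.run_states, b1]
    refine Fin.addCases (fun p => ?_) (fun h => ?_) p'
    · rw [sts_left, sts_left]
      rfl
    · rw [sts_right, sts_right]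
      show SQ.h3 t (eH h) (Option.isSome _) = SQ.h3 t (eH h) (mis (eH h))
      congr 1
      rw [Bool.eq_iff_iff, hmis]
      cases hp : probe M k D en (qs (eH h).1) (eH h).2.1 (eH h).2.2 with
      | none =>
        rw [Machine.find_nil (by
          show query1 M k D en (SQ.h2 t (eH h) (some (qs (eH h).1))) = []
          unfold query1
          dsimp only
          rw [hp])]
        refine iff_of_false (by simp) ?_
        rintro ⟨cv, hcv, _⟩
        exact absurd hcv (by simp)
      | some cv =>
        rw [Machine.find_single (c := emb M D cv.1) (by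
          show query1 M k D en (SQ.h2 t (eH h) (some (qs (eH h).1))) = [emb M D cv.1]
          unfold query1
          dsimp only
          rw [hp])]
        have ht : (simM M k D H en eH).test (SQ.h2 t (eH h) (some (qs (eH h).1)))
            (((simM M k D H en eH).run x (n + 2)).2 (emb M D cv.1)) =
            decide (mem cv.1 ≠ cv.2) := by
          show test2 M k D en (SQ.h2 t (eH h) (some (qs (eH h).1))) _ = _
          unfold test2
          dsimp only
          rw [hp]
          dsimp only
          rw [b0, a2]
          congr 1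
          simp
        rw [ht]
        by_cases hne : mem cv.1 = cv.2
        · rw [if_neg (by simp [hne])]
          refine iff_of_false (by simp) ?_
          rintro ⟨cv', hcv', hne'⟩
          rw [Option.some.injEq] at hcv'
          rw [← hcv'] at hne'
          exact hne' hne
        · rw [if_pos (by simp [hne])]
          exact iff_of_true rfl ⟨cv, rfl, hne⟩
  have cw : ∀ (h : Fin P × Fin D × Fin k) c, (simM M k D H en eH).wr c (SQ.h3 t h (mis h)) =
      if mis h = true ∧ cfl M D h.1 h.2.1 = c then some (SV.bad t) else none := by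
    intro h c
    cases hm : mis h with
    | true =>
      rw [Machine.wr_of (c' := cfl M D h.1 h.2.1) (v := SV.bad t) rfl]
      simp
    | false =>
      rw [Machine.wr_none_of rfl]
      simp
  have c2 : ∀ c, ((simM M k D H en eH).run x (n + 3)).2 (emb M D c) = SV.val (mem c) := by
    intro c
    rw [Machine.mem_none, b0, a2]
    intro p'
    rw [c1]
    refine Fin.addCases (fun p => ?_) (fun h => ?_) p'
    · rw [sts_left]
      exact Machine.wr_none_of rfl
    · rw [sts_right, cw, if_neg]
      rintro ⟨_, h5⟩
      exact emb_ne_cfl M D c _ _ h5.symm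
  have c3 : ∀ p d, ((simM M k D H en eH).run x (n + 3)).2 (cfl M D p d) = SV.bad t ↔
      ∃ i, mis (p, d, i) = true := by
    intro p d
    by_cases hex : ∃ i, mis (p, d, i) = true
    · refine iff_of_true ?_ hex
      obtain ⟨i, hi⟩ := hex
      apply Machine.mem_some
      · refine ⟨Fin.natAdd P (eH.symm (p, d, i)), ?_⟩
        rw [c1, sts_right, Equiv.apply_symm_apply, cw, if_pos ⟨hi, rfl⟩]
      · intro p'
        rw [c1]
        refine Fin.addCases (fun p2 => ?_) (fun h => ?_) p'
        · intro v' hv'
          rw [sts_left, Machine.wr_none_of rfl] at hv'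
          exact absurd hv' (by simp)
        · intro v' hv'
          rw [sts_right, cw] at hv'
          split_ifs at hv' with h5
          · rw [Option.some.injEq] at hv'
            exact hv'.symm
    · refine iff_of_false ?_ hex
      rw [Machine.mem_none, b0]
      · exact a4 p d t le_rfl
      intro p'
      rw [c1]
      refine Fin.addCases (fun p2 => ?_) (fun h => ?_) p'
      · rw [sts_left]
        exact Machine.wr_none_of rfl
      · rw [sts_right, cw, if_neg]
        rintro ⟨h5, h6⟩
        apply hex
        have h7 : (eH h).1 = p ∧ (eH h).2.1 = d := by simpa [cfl] using h6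
        refine ⟨(eH h).2.2, ?_⟩
        rw [← h7.1, ← h7.2]
        exact h5
  have c4 : ∀ p d t', t + 1 ≤ t' →
      ((simM M k D H en eH).run x (n + 3)).2 (cfl M D p d) ≠ SV.bad t' := by
    intro p d t' ht'
    by_cases hex : ∃ i, mis (p, d, i) = true
    · rw [(c3 p d).2 hex]
      intro heq
      have : t = t' := by simpa using heq
      omega
    · rw [Machine.mem_none, b0]
      · exact a4 p d t' (by omega)
      intro p'
      rw [c1]
      refine Fin.addCases (fun p2 => ?_) (fun h => ?_) p'
      · rw [sts_left]
        exact Machine.wr_none_of rfl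
      · rw [sts_right, cw, if_neg]
        rintro ⟨h5, h6⟩
        apply hex
        have h7 : (eH h).1 = p ∧ (eH h).2.1 = d := by simpa [cfl] using h6
        refine ⟨(eH h).2.2, ?_⟩
        rw [← h7.1, ← h7.2]
        exact h5
  -- the fourth step
  have d1 : ((simM M k D H en eH).run x (n + 4)).1 =
      sts k D H eH (fun p => SQ.o0 (t + 1) p ((M.run x (t + 1)).1 p))
        (fun h => SQ.h0 (t + 1) h) := by
    funext p'
    rw [Machine.run_states, c1]
    refine Fin.addCases (fun p => ?_) (fun h => ?_) p'
    · rw [sts_left, sts_left]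
      show SQ.o0 (t + 1) p (M.next (qs p) (M.find (qs p) mem) (Option.isSome _)) =
        SQ.o0 (t + 1) p (M.next ((M.run x t).1 p) (M.find ((M.run x t).1 p) (M.run x t).2)
          (M.reply ((M.run x t).1 p) (M.run x t).2))
      rw [← hqs, ← hmem]
      congr 2
      rw [Bool.eq_iff_iff, reply_iff M k D en hM hen]
      unfold Machine.find
      rw [List.findSome?_isSome_iff]
      show (∃ c ∈ ((List.finRange D).filter
        (fun d => (en (M.ask (qs p)).length d).isSome)).map (cfl M D p), _) ↔ _
      constructor
      · rintro ⟨c, hc, hc2⟩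
        obtain ⟨d, hd, rfl⟩ := List.mem_map.1 hc
        obtain ⟨_, hd2⟩ := List.mem_filter.1 hd
        refine ⟨d, hd2, ?_⟩
        intro i cv hcv
        by_contra hne
        have h5 : ((simM M k D H en eH).run x (n + 3)).2 (cfl M D p d) = SV.bad t := by
          rw [c3]
          exact ⟨i, (hmis _).2 ⟨cv, hcv, hne⟩⟩
        rw [h5] at hc2
        have h6 : (simM M k D H en eH).test (SQ.o3 t p (qs p) (M.find (qs p) mem))
            (SV.bad t) = false := by
          show test2 M k D en (SQ.o3 t p (qs p) (M.find (qs p) mem)) (SV.bad t) = false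
          unfold test2
          simp
        rw [h6] at hc2
        exact absurd hc2 (by simp)
      · rintro ⟨d, hd, hall⟩
        refine ⟨cfl M D p d, List.mem_map.2 ⟨d, List.mem_filter.2
          ⟨List.mem_finRange d, hd⟩, rfl⟩, ?_⟩
        have h5 : ((simM M k D H en eH).run x (n + 3)).2 (cfl M D p d) ≠ SV.bad t := by
          intro heq
          rw [c3] at heq
          obtain ⟨i, hi⟩ := heq
          obtain ⟨cv, hcv, hne⟩ := (hmis _).1 hi
          exact hne (hall i cv hcv)
        have h6 : (simM M k D H en eH).test (SQ.o3 t p (qs p) (M.find (qs p) mem))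
            (((simM M k D H en eH).run x (n + 3)).2 (cfl M D p d)) = true := by
          show test2 M k D en (SQ.o3 t p (qs p) (M.find (qs p) mem)) _ = true
          unfold test2
          exact decide_eq_true h5
        rw [h6]
        rfl
    · rw [sts_right, sts_right]
      rfl
  refine ⟨d1, ?_, ?_⟩
  · intro c
    rw [Machine.run_mem, d1, finRange_add, List.findSome?_append, List.findSome?_map,
      List.findSome?_map]
    have e1 : (List.finRange H).findSome? ((fun p => (simM M k D H en eH).wr (emb M D c)
        (sts k D H eH (fun p => SQ.o0 (t + 1) p ((M.run x (t + 1)).1 p))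
        (fun h => SQ.h0 (t + 1) h) p)) ∘ Fin.natAdd P) = none := by
      apply findSome_none
      intro h _
      show (simM M k D H en eH).wr (emb M D c) (sts k D H eH _ _ (Fin.natAdd P h)) = none
      rw [sts_right]
      exact Machine.wr_none_of rfl
    have e2 : (List.finRange P).findSome? ((fun p => (simM M k D H en eH).wr (emb M D c)
        (sts k D H eH (fun p => SQ.o0 (t + 1) p ((M.run x (t + 1)).1 p))
        (fun h => SQ.h0 (t + 1) h) p)) ∘ Fin.castAdd H) =
        ((List.finRange P).findSome? (fun p => M.wr c ((M.run x (t + 1)).1 p))).map SV.val := by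
      rw [List.map_findSome?]
      congr 1
      funext p
      show (simM M k D H en eH).wr (emb M D c) (sts k D H eH _ _ (Fin.castAdd H p)) =
        Option.map SV.val (M.wr c ((M.run x (t + 1)).1 p))
      rw [sts_left]
      unfold OMachine.wr
      cases hw : M.write ((M.run x (t + 1)).1 p) with
      | none =>
        rw [Machine.wr_none_of (by
          show (M.write ((M.run x (t + 1)).1 p)).map _ = none
          rw [hw]
          rfl)]
        rfl
      | some cv =>
        rw [Machine.wr_of (c' := emb M D cv.1) (v := SV.val cv.2) (by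
          show (M.write ((M.run x (t + 1)).1 p)).map _ = some (emb M D cv.1, SV.val cv.2)
          rw [hw]
          rfl)]
        dsimp only [Option.bind_some]
        by_cases hc : cv.1 = c
        · rw [if_pos hc, if_pos (by rw [hc])]
          rfl
        · rw [if_neg hc, if_neg (fun h => hc (emb_inj M D h))]
          rfl
    have e3 : (M.run x (t + 1)).2 c = ((List.finRange P).findSome?
        (fun p => M.wr c ((M.run x (t + 1)).1 p))).getD ((M.run x t).2 c) := rfl
    rw [e1, e2, Option.or_none, c2, e3, ← hmem]
    generalize (List.finRange P).findSome? (fun p => M.wr c ((M.run x (t + 1)).1 p)) = r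
    cases r <;> rfl
  · intro p d t' ht'
    rw [Machine.mem_none]
    · exact c4 p d t' ht'
    intro p'
    rw [d1]
    refine Fin.addCases (fun p2 => ?_) (fun h => ?_) p'
    · rw [sts_left]
      cases hw : M.write ((M.run x (t + 1)).1 p2) with
      | none =>
        exact Machine.wr_none_of (by
          show (M.write ((M.run x (t + 1)).1 p2)).map _ = none
          rw [hw]
          rfl)
      | some cv =>
        rw [Machine.wr_of (c' := emb M D cv.1) (v := SV.val cv.2) (by
          show (M.write ((M.run x (t + 1)).1 p2)).map _ = some (emb M D cv.1, SV.val cv.2)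
          rw [hw]
          rfl), if_neg (emb_ne_cfl M D _ _ _)]
    · rw [sts_right]
      exact Machine.wr_none_of rfl

end Sim

end Pool.Agent.W964.Wd
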