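import Mathlib
import Pool.Agent.W964.Wd.Sp.Sim
import Pool.Agent.W964.Wd.Sat

/-!
Machines with sparse oracles.
-/

set_option linter.unusedSectionVars false

namespace Pool.Agent.W964.Wd

open Finset H568R2 H592R3 SmallDepth Pool.Agent.W964.Pram

section Sim
variable {W J : Type} {P : ℕ} (M : OMachine W J P) (k D H : ℕ)
  (en : ℕ → Fin D → Option (List M.V))

lemma sync_zero (eH : Fin H ≃ Fin P × Fin D × Fin k) (x : J → W) :
    Sync M k D H en eH x 0 0 := by
  refine ⟨rfl, ?_, ?_⟩
  · intro c
    cases c <;> rfl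
  · intro p d t' _ h
    have h2 : (SV.val M.blank : SV M.V M.Q) = SV.bad t' := h
    exact absurd h2 (by simp)

lemma sync_all (hM : M.Sparse k D)
    (hen : ∀ l, l ≤ k → ∀ s, (s ∈ M.oracle ∧ s.length = l) ↔ ∃ d, en l d = some s)
    (eH : Fin H ≃ Fin P × Fin D × Fin k) (x : J → W) (t : ℕ) :
    Sync M k D H en eH x t (4 * t) := by
  induction t with
  | zero => exact sync_zero M k D H en eH x
  | succ t ih => exact sync_step M k D H en hM hen eH x ih

lemma sim_lists {K : ℕ} (hK : M.Lists K) (eH : Fin H ≃ Fin P × Fin D × Fin k) :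
    (simM M k D H en eH).Lists (max K (max D 1)) := by
  intro q
  show (query1 M k D en q).length ≤ _
  have h1 : 1 ≤ max K (max D 1) := (le_max_right D 1).trans (le_max_right _ _)
  cases q with
  | o0 t p q =>
    show ((M.query q).map (emb M D)).length ≤ _
    rw [List.length_map]
    exact (hK q).trans (le_max_left _ _)
  | o1 t p q o => exact Nat.zero_le _
  | o2 t p q o => exact Nat.zero_le _
  | o3 t p q o =>
    show (((List.finRange D).filter _).map _).length ≤ _
    rw [List.length_map]
    refine (List.length_filter_le _ _).trans ?_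
    rw [List.length_finRange]
    exact (le_max_left _ _).trans (le_max_right _ _)
  | h0 t h => exact Nat.zero_le _
  | h1 t h => exact h1
  | h2 t h q =>
    cases q with
    | none => exact Nat.zero_le _
    | some q =>
      show (match probe M k D en q h.2.1 h.2.2 with
        | some cv => [emb M D cv.1]
        | none => []).length ≤ _
      cases probe M k D en q h.2.1 h.2.2 with
      | none => exact Nat.zero_le _
      | some cv => exact h1
  | h3 t h b => exact Nat.zero_le _

end Sim

/-- Enumeration of a small set. -/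
lemma enum_set {α : Type} (S : Set α) (D : ℕ) (h : S.encard ≤ D) :
    ∃ f : Fin D → Option α, ∀ s, s ∈ S ↔ ∃ d, f d = some s := by
  classical
  have hfin : S.Finite := Set.finite_of_encard_le_coe h
  obtain ⟨F, hF⟩ : ∃ F : Finset α, F = hfin.toFinset := ⟨_, rfl⟩
  have hFS : ∀ s, s ∈ S ↔ s ∈ F := fun s => by rw [hF, Set.Finite.mem_toFinset]
  have hc : F.card ≤ D := by
    have h1 : S.encard = (F.card : ℕ∞) := by
      rw [hF]
      exact hfin.encard_eq_coe_toFinset_card
    rw [h1] at h
    exact_mod_cast h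
  refine ⟨fun d => F.toList[(d : ℕ)]?, fun s => ?_⟩
  rw [hFS, ← Finset.mem_toList, List.mem_iff_getElem?]
  constructor
  · rintro ⟨i, hi⟩
    have hlt : i < F.toList.length := by
      by_contra hcon
      rw [List.getElem?_eq_none (by omega)] at hi
      exact absurd hi (by simp)
    rw [Finset.length_toList] at hlt
    exact ⟨⟨i, by omega⟩, hi⟩
  · rintro ⟨d, hd⟩
    exact ⟨d, hd⟩

/-- A machine with a sparse oracle is simulated by a machine without oracle. -/
theorem sim_sparse {W J : Type} {P : ℕ} (M : OMachine W J P) {k D K : ℕ} (hM : M.Sparse k D)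
    (hK : M.Lists K) : ∃ N : Machine W J (P + P * (D * k)), N.Lists (max K (max D 1)) ∧
      ∀ x T, N.answer (4 * T) x = M.answer T x := by
  classical
  obtain ⟨eH⟩ : Nonempty (Fin (P * (D * k)) ≃ Fin P × Fin D × Fin k) :=
    ⟨(Fintype.equivFinOfCardEq (by simp)).symm⟩
  have h1 : ∀ l : ℕ, ∃ f : Fin D → Option (List M.V), l ≤ k →
      ∀ s, (s ∈ M.oracle ∧ s.length = l) ↔ ∃ d, f d = some s := by
    intro l
    by_cases hl : l ≤ k
    · obtain ⟨f, hf⟩ := enum_set _ D (hM.2 l hl)
      exact ⟨f, fun _ s => hf s⟩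
    · exact ⟨fun _ => none, fun h => absurd h hl⟩
  choose en hen using h1
  refine ⟨simM M k D (P * (D * k)) en eH, sim_lists M k D _ en hK eH, fun x T => ?_⟩
  have h2 := (sync_all M k D _ en hM hen eH x T).mem M.out
  show (simM M k D (P * (D * k)) en eH).accept
    (((simM M k D (P * (D * k)) en eH).run x (4 * T)).2 (emb M D M.out)) = _
  rw [h2]
  rfl

/-- Randomized parallel machines with sparse oracles fail on some formula. -/
theorem sparse_rand (ε : ℝ) (hε : 0 < ε) (K : ℕ) : ∃ C : ℝ, 0 < C ∧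
    ∀ n T w M : ℕ, 2 ≤ n → 1 ≤ T → C * (T * Real.log n) ≤ w → w ≤ n → n * 2 ^ w ≤ M →
    ∀ (P k D : ℕ) (R : ROMachine Bool (Fin M × Fin n × Bool) P),
      ((P * (1 + D * k) : ℕ) : ℝ) ≤ 2 ^ ((1 - ε) * n) → D ≤ 2 ^ (K * n) →
      (∀ ω, (R.mach ω).Lists (2 ^ (K * n)) ∧ (R.mach ω).Sparse k D) →
      ∃ x, WidthLe x w ∧
        R.success T x (∃ α, Models x α) ≤ 1 / 2 + (2 : ℝ) ^ (-((w : ℝ) / C)) := by
  obtain ⟨C, hC, H⟩ := sat_rand_wd ε hε K
  refine ⟨4 * C, by positivity, ?_⟩
  intro n T w M hn hT hw hwn hM P k D R hP hD hR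
  have hnR : (2 : ℝ) ≤ n := by exact_mod_cast hn
  choose N hN1 hN2 using fun ω => sim_sparse (R.mach ω) (hR ω).2 (hR ω).1
  have hPP : P + P * (D * k) = P * (1 + D * k) := by ring
  obtain ⟨x, hx1, hx2⟩ := H n (4 * T) w M hn (by omega) (by
      refine le_trans (le_of_eq ?_) hw
      push_cast
      ring) hwn hM (P + P * (D * k))
    { Ω := R.Ω, fin := R.fin, prob := R.prob, nonneg := R.nonneg, total := R.total, mach := N }
    (by rw [hPP]; exact hP) (by
      intro ω q
      refine (hN1 ω q).trans (max_le le_rfl (max_le hD Nat.one_le_two_pow)))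
  refine ⟨x, hx1, ?_⟩
  have h1 : R.success T x (∃ α, Models x α) = RandMachine.success { Ω := R.Ω, fin := R.fin, prob := R.prob, nonneg := R.nonneg, total := R.total, mach := N } (4 * T) x (∃ α, Models x α) := by
    unfold ROMachine.success RandMachine.success
    refine Finset.sum_congr rfl fun ω _ => ?_
    dsimp only
    rw [hN2]
  rw [h1]
  refine hx2.trans ?_
  have h2 : (2 : ℝ) ^ (-((w : ℝ) / C)) ≤ 2 ^ (-((w : ℝ) / (4 * C))) := by
    apply Real.rpow_le_rpow_of_exponent_le (by norm_num)
    rw [neg_le_neg_iff]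
    exact div_le_div_of_nonneg_left (Nat.cast_nonneg w) hC (by linarith)
  linarith

end Pool.Agent.W964.Wd
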